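import Mathlib
import Pool.Agent.MP_e4c3a7_lc.Main

/-!
GCH together with the square principle of countable width at `ℵ_ω` gives an
`ℵ_{ω+1}`-Souslin tree.
-/

open Cardinal Ordinal Set

namespace Pool.Agent.Results.MP_e4c3a7_lc.SouslinTree

/-- `acc C`: the ordinals `β < sup C` with `β > 0` and `sup (C ∩ β) = β`. -/
def acc (C : Set Ordinal.{0}) : Set Ordinal.{0} :=
  {β | β < sSup C ∧ 0 < β ∧ sSup (C ∩ Iio β) = β}

/-- `C` is a closed unbounded subset of the limit ordinal `α`. -/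
def IsClubIn (C : Set Ordinal.{0}) (α : Ordinal.{0}) : Prop :=
  C ⊆ Iio α ∧ sSup C = α ∧ acc C ⊆ C

/-- The principle `□_{κ,ω}`: every family is nonempty and countable. The order type of `C` is the
ordinal `ξ` such that `C` is order isomorphic to the set of ordinals below `ξ`. -/
def SquareCountable (κ : Cardinal.{0}) : Prop :=
  ∃ 𝒞 : Ordinal.{0} → Set (Set Ordinal.{0}), ∀ α < (Order.succ κ).ord, Order.IsSuccLimit α →
    (𝒞 α).Nonempty ∧ (𝒞 α).Countable ∧ (∀ C ∈ 𝒞 α, IsClubIn C α) ∧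
    (α.cof < κ → ∀ C ∈ 𝒞 α, ∃ ξ < κ.ord, Nonempty (OrderIso C (Iio ξ))) ∧
    ∀ C ∈ 𝒞 α, ∀ β ∈ acc C, C ∩ Iio β ∈ 𝒞 β

/-- `T` is a `κ`-Souslin tree: the predecessors of each node are well ordered in type below `κ`,
every level below `κ` is nonempty, and chains and antichains have size below `κ`. -/
def IsSouslinTree (κ : Cardinal.{0}) (T : Type) [PartialOrder T] : Prop :=
  (∀ t : T, ∃ ξ < κ.ord, Nonempty (OrderIso (Iio t) (Iio ξ))) ∧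
  (∀ ξ < κ.ord, ∃ t : T, Nonempty (OrderIso (Iio t) (Iio ξ))) ∧
  (∀ c : Set T, IsChain (· ≤ ·) c → #c < κ) ∧
  (∀ a : Set T, IsAntichain (· ≤ ·) a → #a < κ)

open Pool.Agent.MP_e4c3a7_lc

section Transfer

variable {K : Type} [LinearOrder K] {θ : Ordinal.{0}} {ψ : K → Ordinal.{0}}

theorem isSuccLimit_of_isLim (hψ : StrictMono ψ) (hlt : ∀ a, ψ a < θ)
    (hsurj : ∀ ξ < θ, ∃ a, ψ a = ξ) {a : K} (ha : IsLim a) : Order.IsSuccLimit (ψ a) := by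
  obtain ⟨x, hx⟩ := ha.1
  refine ⟨not_isMin_of_lt (hψ hx), fun b hb => ?_⟩
  obtain ⟨y, rfl⟩ := hsurj b (hb.1.trans (hlt a))
  obtain ⟨z, -, h1, h2⟩ := ha.2 y (hψ.lt_iff_lt.1 hb.1)
  exact hb.2 (hψ h1) (hψ h2)

theorem exists_sqSeq (hψ : StrictMono ψ) (hlt : ∀ a, ψ a < (Order.succ lam).ord)
    (hsurj : ∀ ξ < (Order.succ lam).ord, ∃ a, ψ a = ξ) (h : SquareCountable lam) :
    Nonempty (SqSeq K) := by
  obtain ⟨𝒞, h𝒞⟩ := h
  have H := fun a (ha : IsLim a) => h𝒞 (ψ a) (hlt a) (isSuccLimit_of_isLim hψ hlt hsurj ha)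
  refine ⟨⟨fun a => preimage ψ '' 𝒞 (ψ a), fun a ha => (H a ha).1.image _,
    fun a ha => (H a ha).2.1.image _, ?_, ?_, ?_, ?_⟩⟩
  · rintro a ha _ ⟨C, hC, rfl⟩ x hx
    exact hψ.lt_iff_lt.1 (((H a ha).2.2.1 C hC).1 hx)
  · rintro a ha _ ⟨C, hC, rfl⟩
    obtain ⟨h1, h2, -⟩ := (H a ha).2.2.1 C hC
    refine ⟨ha.1, fun x hx => ?_⟩
    have h3 : ψ x < sSup C := h2 ▸ hψ hx
    obtain ⟨c, hc, h4⟩ := (lt_csSup_iff' ⟨ψ a, fun y hy => (h1 hy).le⟩).1 h3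
    obtain ⟨y, rfl⟩ := hsurj c ((h1 hc).trans (hlt a))
    exact ⟨y, hc, hψ.lt_iff_lt.1 h4, hψ.lt_iff_lt.1 (h1 hc)⟩
  · rintro a ha _ ⟨C, hC, rfl⟩
    have h1 : (ψ a).cof < lam := by
      refine lt_of_le_of_ne ((cof_le_card _).trans (card_le_iff.2 (hlt a))) fun h => ?_
      have h2 := isRegular_cof (isSuccLimit_of_isLim hψ hlt hsurj ha)
      rw [h] at h2
      exact h2.not_isSingular isSingular_aleph_omega0
    obtain ⟨ξ, ho, ⟨e⟩⟩ := (H a ha).2.2.2.1 h1 C hC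
    have h2 := mk_preimage_of_injective_lift ψ C hψ.injective
    rw [mk_congr e.toEquiv, Cardinal.mk_Iio_ordinal, Cardinal.lift_id', Cardinal.lift_le] at h2
    exact h2.trans_lt (lt_ord.1 ho)
  · rintro a ha _ ⟨C, hC, rfl⟩ β hβ hl
    obtain ⟨h1, h2, -⟩ := (H a ha).2.2.1 C hC
    obtain ⟨x, hx⟩ := hl.1
    refine ⟨C ∩ Iio (ψ β), (H a ha).2.2.2.2 C hC _ ⟨h2 ▸ hψ hβ, pos_of_gt (hψ hx), ?_⟩, ?_⟩
    · refine le_antisymm (csSup_le' fun y hy => hy.2.le) (le_of_forall_lt fun ξ ho => ?_)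
      obtain ⟨y, rfl⟩ := hsurj ξ (ho.trans (hlt β))
      obtain ⟨z, hz, h3, h4⟩ := hl.2 y (hψ.lt_iff_lt.1 ho)
      exact (hψ h3).trans_le (le_csSup ⟨ψ β, fun y hy => hy.2.le⟩ ⟨hz, hψ h4⟩)
    · ext y
      simp [hψ.lt_iff_lt]

theorem iso_Iio (hψ : StrictMono ψ) (hlt : ∀ a, ψ a < θ) (hsurj : ∀ ξ < θ, ∃ a, ψ a = ξ) (a : K) :
    Nonempty (Iio a ≃o Iio (ψ a)) := by
  refine ⟨StrictMono.orderIsoOfSurjective (fun x : Iio a => (⟨ψ x.1, hψ x.2⟩ : Iio (ψ a)))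
    (fun x y h => hψ h) ?_⟩
  rintro ⟨ξ, ho⟩
  obtain ⟨y, rfl⟩ := hsurj ξ (lt_trans ho (hlt a))
  exact ⟨⟨y, hψ.lt_iff_lt.1 ho⟩, rfl⟩

end Transfer

theorem result (GCH : ∀ c : Cardinal.{0}, ℵ₀ ≤ c → 2 ^ c = Order.succ c)
    (h : SquareCountable (ℵ_ ω)) :
    ∃ (T : Type) (_ : PartialOrder T), IsSouslinTree (ℵ_ (ω + 1)) T := by
  rw [← succ_aleph]
  change ∃ (T : Type) (_ : PartialOrder T), IsSouslinTree (Order.succ lam) T
  let K := (Order.succ lam).ord.ToType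
  let ψ : K → Ordinal.{0} := fun a => (ToType.mk.symm a).1
  have hψ : StrictMono ψ := fun a b hab => ToType.mk.symm.strictMono hab
  have hlt : ∀ a, ψ a < (Order.succ lam).ord := fun a => (ToType.mk.symm a).2
  have hsurj : ∀ ξ < (Order.succ lam).ord, ∃ a, ψ a = ξ := fun ξ ho =>
    ⟨ToType.mk ⟨ξ, ho⟩, by simp [ψ]⟩
  have H : Ctx K := ⟨fun a => Order.lt_succ_iff.1 (mk_Iio_idx a), mk_ord_toType _,
    fun n => by rw [GCH _ (aleph0_le_al n), ← al_succ]; exact (al_lt_lam _).le,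
    (GCH _ aleph0_le_lam).le⟩
  obtain ⟨Q⟩ := exists_sqSeq hψ hlt hsurj h
  obtain ⟨D, W, L, hD, hL, hA⟩ := exists_levels H Q
  have hiso : ∀ t : Node L, Nonempty (Iio t ≃o Iio (ψ t.val.1)) := by
    intro t
    obtain ⟨e2⟩ := iso_Iio hψ hlt hsurj t.val.1
    let f : Iio t.val.1 → Iio t := fun x =>
      ⟨⟨(x.1, t.val.2 ∩ Iio x.1), hL.down t.mem (le_of_lt x.2), inter_subset_right⟩,
        Node.lt_iff.2 ⟨⟨le_of_lt x.2, rfl⟩, x.2⟩⟩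
    have hf : StrictMono f := fun x y hxy =>
      Node.lt_iff.2 ⟨⟨le_of_lt hxy, inter_Iio_Iio _ (le_of_lt hxy)⟩, hxy⟩
    have hf2 : Function.Surjective f := by
      rintro ⟨a, ha⟩
      obtain ⟨h1, h2⟩ := Node.lt_iff.1 ha
      exact ⟨⟨a.val.1, h2⟩, Subtype.ext (Node.ext (Prod.ext rfl h1.2))⟩
    exact ⟨(hf.orderIsoOfSurjective f hf2).symm.trans e2⟩
  refine ⟨Node L, inferInstance, fun t => ⟨_, hlt _, hiso t⟩, fun ξ ho => ?_, fun c hc => ?_,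
    fun a ha => ?_⟩
  · obtain ⟨a, rfl⟩ := hsurj ξ ho
    obtain ⟨b, hb⟩ := hL.nonempty hD a
    exact ⟨⟨(a, b), hb, hL.sub hb⟩, hiso _⟩
  · rw [Order.lt_succ_iff, ← mk_image_eq Node.val_injective]
    refine chain_small H hL hA ?_ ?_
    · rintro _ ⟨t, -, rfl⟩
      exact t.mem
    · rintro _ ⟨t, ht, rfl⟩ _ ⟨t', ht', rfl⟩
      exact hc.total ht ht'
  · rw [Order.lt_succ_iff, ← mk_image_eq Node.val_injective]
    refine hA _ ⟨?_, ?_⟩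
    · rintro _ ⟨t, -, rfl⟩
      exact t.mem
    · rintro _ ⟨t, ht, rfl⟩ _ ⟨t', ht', rfl⟩ hle
      rw [ha.eq ht ht' hle]

end Pool.Agent.Results.MP_e4c3a7_lc.SouslinTree
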